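import Pool.Agent.H64.FR.Final

/-!
# `M[1]` and `W[1]`: no reductions with unreliable negations

`M[1]` is the closure under fpt-reductions of the problems `p-log-SAT(Γ_{1,d})`: satisfiability of
formulas of size `m` with at most `d` literals per clause, parameterized by `⌈v / log m⌉`, where `v`
is the number of variables.

We consider reductions from the clique problem which are computed by circuits of AND and OR gates on
the bits of the graph (with `n` vertices) and the negated bits: for each possible clause the circuit
says whether the clause is dropped from the formula. The reduction may be random, and it may ask `q`
such questions, whose answers are evaluated by a nondecreasing function. With reliable negated bits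
this is no restriction at all for many-one reductions (by the rules of De Morgan), and it is an
open problem (the nonuniform form of `M[1] = W[1]`) whether there are such reductions.

Here the negated bits are unreliable: on a graph with a clique of `s k` vertices the answer has to
be `true` with probability `4 / 5` even if each negated input is stuck at `0` independently with
probability `1 / D`; on a graph without clique of `k` vertices the answer has to be `false` with
probability `3 / 4`, without faults. The definitions (`LitReduction`, `answer`, `Tolerates`) are in
`Pool/Agent/H64/FR/Defs.lean`; the function `literals` is in `Pool/Agent/H64/FN/Defs.lean`.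

Idea of the proof. A small graph is blown up: each vertex becomes a class of `t = D ^ O(1)` vertices,
and the edges between the classes of two adjacent vertices are exactly the faulty positions. If the
small graph has a clique, then some diagonal of the classes is faulty everywhere, and this is a
clique. The negated inputs do not depend on the small graph: at the faulty positions they are `0`,
and there are no edges at the other positions. So the reduction becomes a random circuit of AND and
OR gates on the bits of the small graph, with one further gate for the evaluation, which has
`O(q (log n) ^ d)` inputs, and the starting lower bound for such circuits applies.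
-/

set_option autoImplicit false

namespace Pool.Agent.Results.MP_ddf912_lc.FaultyNegations

open Filter
open Pool.Agent.H64.FR

/-- **There are no random reductions with unreliable negations.** For all functions `f`, `g`, `s`
with `k ≤ s k`, all `c`, `d` and all `γ < 2`: for all large `k` there is `E` such that for all large
`n` and all `D ≥ 1` with `D ^ E ≤ n`, no random truth-table reduction with at most `f k * n ^ c`
gates, fewer than `n ^ γ` questions and at most `g k * (log (f k * n ^ c) + 1)` variables
tells graphs with a clique of `s k` vertices from graphs without clique of `k` vertices, if each
negated input may be stuck at `0` with probability `1 / D`. -/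
theorem result (f g s : ℕ → ℕ) (hs : ∀ k, k ≤ s k) (c d : ℕ) (γ : ℝ) (hγ0 : 0 ≤ γ)
    (hγ : γ < 2) :
    ∀ᶠ k : ℕ in atTop, ∃ E : ℕ, ∀ᶠ n : ℕ in atTop, ∀ D : ℕ, 1 ≤ D → D ^ E ≤ n →
      ∀ (Ω : Type) [Fintype Ω] [Nonempty Ω] (v q N : Ω → ℕ)
        (R : ∀ r, LitReduction n (v r) d (q r) (N r)),
        (∀ r, v r ≤ g k * (Nat.log 2 (f k * n ^ c) + 1)) →
        (∀ r, ((q r + 1 : ℕ) : ℝ) ≤ (n : ℝ) ^ γ) → (∀ r, (R r).C.size ≤ f k * n ^ c) →
          ¬ Tolerates (s k) k D fun r y => (R r).answer y :=
  no_tolerant f g s hs c d γ hγ0 hγ

end Pool.Agent.Results.MP_ddf912_lc.FaultyNegations
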