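import Pool.Agent.H592R2.MainW

/-!
# The W-hierarchy is strict with respect to para-AC0 reductions

For every `t ≥ 1` the weighted satisfiability problem for circuits of weft at most `t + 1` and depth
at most `2 t + 3` has no (nonuniform) para-AC0 reduction to the weighted satisfiability problem for
circuits of weft at most `t` and depth at most `d`, for any `d`.  So `W[t]` is a proper subset of
`W[t + 1]` if both are defined with these reductions.
-/

open Pool.Agent.H592R2

theorem Pool.Agent.Results.MP_ddf912_lc.StrictWHierarchy.result (t : ℕ) (ht : 1 ≤ t) :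
    (∀ d : ℕ, ¬ ParaAC0Red (pWSAT (t + 1) (2 * t + 3)) (pWSAT t d)) ∧
      WAC0 t ⊂ WAC0 (t + 1) := by
  refine ⟨fun d => ?_, WAC0_strict t ht⟩
  obtain ⟨s, rfl⟩ : ∃ s, t = s + 1 := ⟨t - 1, by omega⟩
  have h := no_redW s d
  have e : 3 + 2 * (s + 1) = 2 * (s + 1) + 3 := by ring
  rw [e] at h
  exact h
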