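import Pool.Agent.V11015.SA.Low
import Pool.Agent.V11015.SA.Red

set_option autoImplicit false

/-!
# `FPT`, `M[1]` and `W[1]` for algorithms with symmetric linear programs

The model is the one of the starting result `SymmetricReductions`: an `LP` accepts an input vector if
a system of linear equations in the input and in `d` further nonnegative variables is solvable; an
`LAlg` is a binary tree of such tests, its size is the total number of nonnegative variables, an
`RLAlg` is a random one with error probability at most `1 / 3`, its size is the expected one.  A CNF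
with clauses of width `d` over the variables `X` is given by the indicator vector of its clauses
(`ind`), and `neg a` is the negation of the variables `x` with `a x = 1`.  `Sym` means that the
permutation of the input coordinates extends to an automorphism of each program.

`SymmetricReductions` shows that in this model the clique problem has no reduction to
`p-log-SAT(Γ_{1,d})`.  Here we treat the other two relations between the classes `FPT`, `M[1]`, `W[1]`:

* `M[1]` is not contained in `FPT`, and the exponential time hypothesis in its strong form holds: for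
  `m = 2 ^ b` the satisfiability of `d`-CNFs with at most `m`
  clauses needs `m ^ c` variables for all `c < (1 - C (log d) ^ 2 / d) ρ` if the algorithm is symmetric
  under some group of `m ^ ρ` negations.  The parameter is the number `κ` of groups of `log m`
  variables, so `ρ ≤ κ`, and any unbounded `ρ` suffices.  For `ρ = κ` the exponent `κ` is reached by
  exhaustive search, a single symmetric program.
* `M[1]` is contained in `W[1]`: there is a reduction to the clique problem with `κ ^ d` parts, whose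
  programs have no nonnegative variables, which commutes with all negations.

The last part is the reason why symmetry under a group of order `m ^ ρ` is not expected to give more than
the exponent `ρ`: a lower bound of `m ^ (ρ + c)` for symmetric programs would be one of `m ^ c` for all
programs.
-/

namespace Pool.Agent.Results.MP_ddf912_lc.SymmetricAlgorithms

open Pool.Agent.H550R2.Lin Pool.Agent.H550R2.Lift Pool.Agent.V11015.SA
open Pool.Agent.H30R2.NS (Clause neg Sat Small)

theorem result :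
    -- (1) lower bound for algorithms that are symmetric under `2 ^ r` negations
    (∃ C : ℝ, ∀ d : ℕ, 3 ≤ d → ∀ r : ℕ, d ≤ r →
      ∀ (X : Type) (Γ : AddSubgroup (X → ZMod 2)), Nat.card Γ = 2 ^ r →
      ∀ R : RLAlg (Clause d X), (∀ a ∈ Γ, R.Sym (neg a)) →
      R.DecidesOn (Small d X (2 ^ (d - 1) * (r + 1))) →
      (2 : ℝ) ^ ((1 - C * (Real.log d ^ 2 / d)) * r) ≤ R.size + 1) ∧
    -- (2) the same for `m ^ ρ` negations and `m = 2 ^ b` clauses
    (∃ C : ℝ, ∀ d : ℕ, 3 ≤ d → ∀ ρ : ℕ, 1 ≤ ρ → ∀ c : ℝ, 0 ≤ c →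
      c < (1 - C * (Real.log d ^ 2 / d)) * ρ → ∀ F : ℝ, ∃ B : ℕ, ∀ b : ℕ, B ≤ b →
      ∀ (X : Type) (Γ : AddSubgroup (X → ZMod 2)), Nat.card Γ = 2 ^ (ρ * b) →
      ∀ R : RLAlg (Clause d X), (∀ a ∈ Γ, R.Sym (neg a)) → R.size ≤ F * ((2 : ℝ) ^ b) ^ c →
      ¬ R.DecidesOn (Small d X (2 ^ b))) ∧
    -- (3) `M[1]` is not contained in `FPT`
    (∃ d : ℕ, 3 ≤ d ∧ ∀ ρ : ℕ → ℕ, (∀ κ, ρ κ ≤ κ) → (∀ s, ∃ κ, s ≤ ρ κ) → ∀ (f : ℕ → ℕ) (c : ℕ),
      ∃ κ B : ℕ, ∀ b, B ≤ b → ∀ Γ : AddSubgroup (Vars κ b → ZMod 2),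
      Nat.card Γ = 2 ^ (ρ κ * b) → ∀ R : RLAlg (Clause d (Vars κ b)),
      (∀ a ∈ Γ, R.Sym (neg a)) → R.size ≤ f κ * ((2 : ℝ) ^ b) ^ c →
      ¬ R.DecidesOn (Small d (Vars κ b) (2 ^ b))) ∧
    -- (4) exhaustive search
    (∀ κ b d : ℕ, ∃ P : LP (Clause d (Vars κ b)) (Fin (2 ^ (κ * b))),
      (∀ a, ∃ π, P.IsAut (neg a) π) ∧ ∀ Φ : Set (Clause d (Vars κ b)), P.Acc (ind Φ) ↔ ¬ Sat Φ) ∧
    -- (5) `M[1]` is contained in `W[1]`
    (∀ κ b d : ℕ, 2 ≤ κ → 1 ≤ d →
      ∃ F : Red (Clause d (Vars κ b)) (Vert κ b d × Vert κ b d) (Vars κ b) neg,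
        F.size = 0 ∧ F.ρ = actP d ∧
        (∀ (Φ : Set (Clause d (Vars κ b))) (u w : Vert κ b d),
          (graph F Φ).Adj u w → u.1 ≠ w.1) ∧
        (∀ (Φ : Set (Clause d (Vars κ b))) (y : Vars κ b → ZMod 2) (u w : Vert κ b d),
          (graph F (neg y '' Φ)).Adj (actV d y u) (actV d y w) ↔ (graph F Φ).Adj u w) ∧
        ∀ Φ : Set (Clause d (Vars κ b)), Sat Φ ↔ ∃ S, (graph F Φ).IsNClique (κ ^ d) S) ∧
    -- (6) symmetrization
    (∀ (d M r : ℕ) (X : Type) (Γ : AddSubgroup (X → ZMod 2)), Nat.card Γ = 2 ^ r →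
      ∀ (D : ℕ) (P : LP (Clause d X) (Fin D)) (s : Prop),
      (∀ Φ ∈ Small d X M, (Sat Φ → (P.Acc (ind Φ) ↔ s)) ∧ (¬ Sat Φ → (P.Acc (ind Φ) ↔ ¬ s))) →
      ∃ P' : LP (Clause d X) (Fin (2 ^ r * D)), (∀ a ∈ Γ, ∃ π, P'.IsAut (neg a) π) ∧
        ∀ Φ ∈ Small d X M, (Sat Φ → (P'.Acc (ind Φ) ↔ s)) ∧ (¬ Sat Φ → (P'.Acc (ind Φ) ↔ ¬ s))) := by
  refine ⟨seth_lp, low_main, ?_, ?_, ?_, fun d M r X Γ hΓ D P s hP => conv_lp d M r X Γ hΓ D P s hP⟩
  · obtain ⟨d, hd, h⟩ := not_fpt
    exact ⟨d, hd, fun ρ _ hρ f c => h ρ hρ f c⟩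
  · intro κ b d
    have h := brute_lp d (Vars κ b)
    have hc : Fintype.card (Vars κ b) = κ * b := by simp
    rw [hc] at h
    exact h
  · intro κ b d hκ hd
    refine ⟨redP κ b d, ?_, rfl, ?_, redP_equiv, redP_correct hκ hd⟩
    · exact Finset.sum_eq_zero fun o _ => algP_size o
    · intro Φ u w h
      rw [redP_adj] at h
      exact h.1.1

end Pool.Agent.Results.MP_ddf912_lc.SymmetricAlgorithms
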